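import Pool.Agent.N926.Sup2.Cg

set_option autoImplicit false

namespace Pool.Agent.Results.MP_8d9088_nt.HalfSum

open Finset

/-- the rising factorial `(x)_k = x (x+1) ⋯ (x+k-1)` -/
def rf (x : ℚ) (k : ℕ) : ℚ := ∏ i ∈ range k, (x + (i : ℚ))

/-- `S(N) = ∑_{k=0}^N (4k+1) ((1/2)_k / k!)^4` -/
def S (N : ℕ) : ℚ := ∑ k ∈ range (N + 1), (4 * (k : ℚ) + 1) * (rf (1 / 2) k / (k.factorial : ℚ)) ^ 4

/-- `x ≡ y (mod p^m)`: `x - y = p^m u` with `u` a rational whose denominator is prime to `p` -/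
def Congr (p m : ℕ) (x y : ℚ) : Prop := ∃ u : ℚ, ¬ p ∣ u.den ∧ x - y = (p : ℚ) ^ m * u

open Pool.Agent.N926.Sup2 Pool.Agent.N926.Sup in
/-- for every prime `p > 3` and every `r ≥ 1`,
`S((p^r-1)/2) ≡ p^r + (7/6) B_{p-3} p^{r+3} (mod p^{r+4})` (`bernoulli` is Mathlib's, `B_1 = -1/2`) -/
theorem result : ∀ p : ℕ, p.Prime → 3 < p → ∀ r : ℕ, 1 ≤ r →
    Congr p (r + 4) (S ((p ^ r - 1) / 2))
      ((p : ℚ) ^ r + 7 / 6 * bernoulli (p - 3) * (p : ℚ) ^ (r + 3)) := by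
  intro p hp h3 r hr
  haveI : Fact p.Prime := ⟨hp⟩
  have h2 : p ≠ 2 := by omega
  obtain ⟨h, hh⟩ := hp.odd_of_ne_two h2
  obtain ⟨s, rfl⟩ : ∃ s, r = s + 1 := ⟨r - 1, by omega⟩
  obtain ⟨M, hM⟩ : Odd (p ^ (s + 1)) := (hp.odd_of_ne_two h2).pow
  have e1 : (p ^ (s + 1) - 1) / 2 = M := by omega
  have hS : S M = A M := by
    unfold S A
    refine sum_congr rfl fun k _ => ?_
    rw [t_rf]
    rfl
  rw [e1, hS]
  have h4 := mul_P (p := p) (cast_P hM) (A_final (p := p) h2 (by omega) hM hh)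
  rw [cast_P hM] at h4
  have e2 : A M - (p:ℚ)^(s+1) * (1 + 7/6 * (p:ℚ)^3 * bernoulli (p-3)) =
      A M - ((p : ℚ) ^ (s+1) + 7 / 6 * bernoulli (p - 3) * (p : ℚ) ^ (s + 1 + 3)) := by
    rw [pow_add (p:ℚ) (s+1) 3]
    ring
  rw [e2] at h4
  exact congr_of_Dv h4

end Pool.Agent.Results.MP_8d9088_nt.HalfSum
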